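import Pool.Agent.D0H58.EA.Time
import Pool.Agent.D0H58.EA.Sane

/-!
# LINKAGE is `W[1]`-hard on acyclic digraphs of ear anonymity at most 5

Negative answer to both questions (under `FPT ≠ W[1]`).  The definitions used in the statement are in
`Pool.Agent.D0H58.EA.Defs` and `Pool.Agent.H557R2.FptDefs`:
* `Dig`, `IsPath`, `IsCycle`, `IsEar`, `IsMaxEar`, `Identifies`, `eaOf`, `ea`, `Acyclic`: digraphs,
  paths, cycles, ears, maximal ears, identifying sequences, ear anonymity (that the minima and maxima
  in its definition are attained is shown in `Pool.Agent.D0H58.EA.Sane`), acyclic digraphs;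
* `HasLinkage D S`: there is a linkage containing, for each pair in `S`, a path joining it;
* `linkageProblem c`: LINKAGE restricted to acyclic digraphs `D` with `ea D ≤ c`; the parameter is
  the number of pairs;
* `SolvesOn C M f g`: the Turing machine `M` solves LINKAGE on all digraphs `D` in the class `C`
  within `f k * |x| ^ g (ea D)` steps;
* `DecidesInTime M L F p`: the Turing machine `M` decides `L` within `F k * p |x|` steps;
* `W1`, `W1Hard`: `W[1]` (the problems fpt-reducible to `p-Clique`), and hardness for it.

The reduction from Clique: for every `i < k` there are two chains `X_i`, `X'_i`, whose positions are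
divided into one block for each vertex of the graph, and a path from the first vertex of `X_i` to the
last vertex of `X'_i` has to run through all blocks of `X_i` before and all blocks of `X'_i` behind
some block `p_i`.  A path from `s_{il}` to `t_{il}` has to run through `X_i`, `X'_i`, and then through
the two chains `Y_l`, `Y'_l` of a second family, and it is forced to pass all four of them at the
blocks chosen.
-/

namespace Pool.Agent.Results.MP_d91e39_lc.LinkageEarAnonymityW1Hard

open Pool.Agent.NPC Pool.Agent.H557R2.Fpt Pool.Agent.D0H58.EA Turing

/-- **LINKAGE, parameterized by the number of pairs, is `W[1]`-hard on acyclic digraphs of ear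
anonymity at most 5.**  So (Q2), if some algorithm solves LINKAGE on all acyclic digraphs in time
`f(k) n^{g(ea(D))}`, for some functions `f`, `g`, then all problems in `W[1]` are fixed-parameter
tractable (with a computable bound if `f` is computable); and (Q1) the same holds for an algorithm
for all digraphs. -/
theorem result :
    W1Hard (linkageProblem 5) ∧
    (∀ (M : TM2ComputableAux Bool Bool) (f g : ℕ → ℕ), SolvesOn (fun _ D => Acyclic D) M f g →
      ∀ L ∈ W1, ∃ (M' : TM2ComputableAux Bool Bool) (F : ℕ → ℕ) (p : Polynomial ℕ),
        (Computable f → Computable F) ∧ DecidesInTime M' L F p) ∧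
    (∀ (M : TM2ComputableAux Bool Bool) (f g : ℕ → ℕ), SolvesOn (fun _ _ => True) M f g →
      ∀ L ∈ W1, ∃ (M' : TM2ComputableAux Bool Bool) (F : ℕ → ℕ) (p : Polynomial ℕ),
        (Computable f → Computable F) ∧ DecidesInTime M' L F p) :=
  ⟨w1Hard_linkage, fun _ _ _ h => decides_of_solves h,
    fun _ _ _ h => decides_of_solves fun n D S _ => h n D S trivial⟩

end Pool.Agent.Results.MP_d91e39_lc.LinkageEarAnonymityW1Hard
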